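import Pool.Agent.RP5.Top
import Pool.Agent.RP5.Bound

/-!
# MP_21a6c3_gt: every triangulation of `ℝP^k` has at least `⌈(k+2)²/2⌉ - 2` vertices

For `k = 5` this says that every triangulation of `ℝP^5` has at least `23` vertices.
-/

set_option autoImplicit false

namespace Pool.Agent.Results.MP_21a6c3_gt.LowerBound

open Pool.Agent.RP5

theorem result {k : ℕ} {V : Type*} [Fintype V] (K : AbstractSimplicialComplex V)
    (h : Nonempty (realization K ≃ₜ RP k)) : ((k + 2) ^ 2 + 1) / 2 - 2 ≤ Fintype.card V := by
  classical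
  obtain ⟨e⟩ := h
  obtain ⟨a, ha, hP⟩ := exists_P K e
  have := hP.bound ha k
  rw [Finset.card_univ] at this
  omega

end Pool.Agent.Results.MP_21a6c3_gt.LowerBound
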