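import Pool.Agent.RP5.Top
import Pool.Agent.RP5S.NoNormal

/-!
# MP_21a6c3_gt: every triangulation of `ℝP^5` has at least `24` vertices
-/

set_option autoImplicit false

namespace Pool.Agent.Results.MP_21a6c3_gt.TwentyFour

open Pool.Agent.RP5

theorem result {V : Type*} [Fintype V] (K : AbstractSimplicialComplex V)
    (h : Nonempty (realization K ≃ₜ RP 5)) : 24 ≤ Fintype.card V := by
  classical
  obtain ⟨e⟩ := h
  obtain ⟨a, ha, hP⟩ := exists_P K e
  have h1 := hP.bound ha 5
  rw [Finset.card_univ] at h1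
  by_contra hn
  have hc : Fintype.card V = 23 := by omega
  let f : Fin 23 ≃ V := (Fintype.equivFinOfCardEq hc).symm
  have h2 : P (pullA f.toEmbedding (fun _ => false) a) 5 Finset.univ :=
    P.pull hP f.toEmbedding _ (fun v _ => ⟨f.symm v, by simp⟩)
  exact Pool.Agent.RP5S.no23 (pullA_symm ha _ _) h2

end Pool.Agent.Results.MP_21a6c3_gt.TwentyFour
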